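import Mathlib
import Pool.Agent.U792.FC.Large

/-!
The Fermat-Catalan equation with two equal exponents, `x ^ p + y ^ p = z ^ r` (also
`x ^ p = y ^ p + z ^ r`, since `x`, `y` may be negative), first case `p ∤ z`: both `x` and `y` have a
large divisor all of whose prime factors are `0` or `1` modulo `r`.

Let `p ≥ 3`, `r ≥ 5` be different primes, `x`, `y` nonzero coprime integers and `p ∤ z`. If `x` or `y` is
`± d e` where no prime factor of `d` is `0` or `1` modulo `r`, then
`max (|x|, |y|) ^ (1/2 - 1/r) ≤ 128 r e`. The constant is absolute: it depends neither on `p` nor on `r`.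
If `r ≥ 97` and `x`, `y` are positive, then even `(x + y) ^ (1/3) ≤ e`. In particular, for `r ≥ 97` there
is no solution in positive integers with `p ∤ z` in which `x` or `y` has only prime factors `< r`, and
none with `min (x, y) < (x + y) ^ (1/3)`.

Proof. As `p ∤ z`, the sum `x + y` is an `r`-th power `w ^ r`, so that `t = y / w ^ r` is small at the primes
dividing `y`, and `z / w ^ p` is near to `(1 - t) ^ (p / r)` at these primes if they are not `0`, `1` modulo `r`
(where `r`-th roots are unique) and, if `y` is the smaller one, at the real place. The Padé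
approximants to `(1 - t) ^ (j / r)`, `j` the residue of `p`, of degree about `p / 2` give a nonzero integer
divisible by `d ^ p`, whose size is bounded by the real closeness. The place at infinity makes good for
the smallness of `y`, so that the bound has the same quality for every size of `y`.
-/

set_option autoImplicit false

namespace Pool.Agent.Results.MP_509488_nt.EqualExponentsSplitPart

/-- `x ^ p + y ^ p = z ^ r` with different primes `p ≥ 3` and `r ≥ 5`, coprime nonzero integers `x`, `y`, and
`z` not divisible by `p` -/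
def Solution (p r : ℕ) (x y z : ℤ) : Prop :=
  p.Prime ∧ r.Prime ∧ 3 ≤ p ∧ 5 ≤ r ∧ p ≠ r ∧ x ≠ 0 ∧ y ≠ 0 ∧ IsCoprime x y ∧ ¬ (p : ℤ) ∣ z ∧
    x ^ p + y ^ p = z ^ r

/-- no prime factor of `d` is `0` or `1` modulo `r` -/
def Nonsplit (r d : ℕ) : Prop := ∀ l : ℕ, l.Prime → l ∣ d → ¬ l ≡ 0 [MOD r] ∧ ¬ l ≡ 1 [MOD r]

theorem result (p r : ℕ) (x y z : ℤ) (h : Solution p r x y z) (d e : ℕ) (hd : Nonsplit r d)
    (hde : x.natAbs = d * e ∨ y.natAbs = d * e) :
    ((max x.natAbs y.natAbs : ℕ) : ℝ) ^ ((1 : ℝ) / 2 - 1 / r) ≤ 128 * r * e ∧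
      (97 ≤ r → 0 < x → 0 < y → ((x : ℝ) + y) ^ ((1 : ℝ) / 3) ≤ e) :=
  ⟨Pool.Agent.U792.FC.main_xy h hd hde, fun hr hx hy => Pool.Agent.U792.FC.large h hr hx hy hd hde⟩

end Pool.Agent.Results.MP_509488_nt.EqualExponentsSplitPart
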