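import Pool.Agent.U985.FM.Frey

/-!
# Fermat-Catalan, signatures `{2, 3, r}` and `{3, 3, r}`: the exponent `r` is at most `C rad(w)^0.3452`

Let `u, v, w` be positive integers, `u` and `v` coprime, `w ≥ 2`, and let `r` be a prime with

`u² + v³ = w^r`, `u² + w^r = v³`, `v³ + w^r = u²`, `u³ + v³ = w^r` or `u³ + w^r = v³`.

These equations are open for almost all `r`.  We show `r ≤ C rad(w)^0.3452`, with an absolute constant `C`; in
other words the radical of the base `w` is at least `c r^2.896`.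

Only published facts are used: modularity, level lowering and the absence of rational isogenies of large prime
degree show that the Frey curve `E : Y² = X³ + 3yX - 2x` of `x² + y³ = z^r` (and `Y² = X³ + 3xyX + y³ - x³` of
`x³ + y³ = z^r`) has the same `r`-torsion as one of finitely many elliptic curves `E₀` with good reduction
outside `{2, 3}` (Wiles, Breuil, Conrad, Diamond, Taylor, Ribet, Mazur; Kraus for `{3, 3, r}`; Poonen, Schaefer and
Stoll, and Freitas, Naskręcki and Stoll for `{2, 3, r}`, where seven curves `E₀` up to quadratic twist by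
`±1, ±2, ±3, ±6` suffice).  The conductor of `E` is at most `C rad(z)`.  The comparison of the traces of Frobenius
of `E` and `E₀` by the Rankin-Selberg method gives `r ≪ rad(w)^(1/2+ε)`; the exponent `0.3452` comes from
`MP_4a0cc8_nt.ConductorExponent`: a prime `p ≪ N^0.6904` with `a_p(E) ≠ a_p(E₀)`.
-/

set_option autoImplicit false

open Pool.Agent.Results.MP_4a0cc8_nt.ConductorExponent (Minimal Congruent Isogenous bad Facts)
open Pool.Agent.U985.FM (many_curves)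

namespace Pool.Agent.Results.MP_509488_nt.ExponentByRadical

/-- The product of the prime divisors of `m`. -/
def radical (m : ℕ) : ℕ := ∏ p ∈ m.primeFactors, p

/-- Published facts about the Frey curves; `cond A B` is the conductor of `y² = x³ + Ax + B` and `𝓔` a finite set
of elliptic curves `E₀` with good reduction outside `{2, 3}`. -/
structure Published (cond : ℤ → ℤ → ℕ) (n₀ : ℕ) (𝓔 : Finset (ℤ × ℤ)) : Prop where
  /-- the curves `E₀`: good reduction at all `p ≥ 5`; the facts about their `L`-functions, with the mean value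
  `8 / (3 π)` (no complex multiplication) or `2 / π` of `|a_p| / √p` -/
  curves : ∀ e ∈ 𝓔, Minimal e.1 e.2 ∧ (∀ p : ℕ, p.Prime → 5 ≤ p → ¬ (p : ℤ) ∣ bad e.1 e.2) ∧
    (Facts cond e.1 e.2 (8 / (3 * Real.pi)) ∨ Facts cond e.1 e.2 (2 / Real.pi))
  /-- the exponent of the conductor is at most `8` at `2`, at most `5` at `3`, and `1` at a prime `p ≥ 5` of bad
  reduction with `p ∤ A` -/
  conductor : ∀ A B, Minimal A B → (∀ p : ℕ, p.Prime → 5 ≤ p → (p : ℤ) ∣ bad A B → ¬ (p : ℤ) ∣ A) →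
    cond A B ≤ 2 ^ 8 * 3 ^ 5 * radical (bad A B).natAbs
  /-- isogenous curves have bad reduction at the same primes -/
  isogenous : ∀ A B A' B', Minimal A B → Minimal A' B' → Isogenous A B A' B' → ∀ p : ℕ, p.Prime → 5 ≤ p →
    ((p : ℤ) ∣ bad A B ↔ (p : ℤ) ∣ bad A' B')
  /-- Shafarevich: there are finitely many elliptic curves over `ℚ` with good reduction outside `{2, 3}` -/
  shafarevich : {t : ℤ × ℤ | Minimal t.1 t.2 ∧ ∀ p : ℕ, p.Prime → (p : ℤ) ∣ bad t.1 t.2 → p ≤ 3}.Finite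
  /-- modularity and level lowering for `x² + y³ = z^n` -/
  lower23 : ∀ (x y z : ℤ) (n : ℕ), n.Prime → n₀ ≤ n → IsCoprime x y → z ≠ 0 → x ^ 2 + y ^ 3 = z ^ n →
    ∃ e ∈ 𝓔, Congruent n (3 * y) (-2 * x) e.1 e.2
  /-- modularity and level lowering for `x³ + y³ = z^n` -/
  lower33 : ∀ (x y z : ℤ) (n : ℕ), n.Prime → n₀ ≤ n → IsCoprime x y → z ≠ 0 → x ^ 3 + y ^ 3 = z ^ n →
    ∃ e ∈ 𝓔, Congruent n (3 * x * y) (y ^ 3 - x ^ 3) e.1 e.2

theorem not_dvd {p : ℕ} (hp : p.Prime) (h5 : 5 ≤ p) (a b : ℕ) : ¬ (p : ℤ) ∣ 2 ^ a * 3 ^ b := by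
  intro h
  have h1 : p ∣ 2 ^ a * 3 ^ b := by exact_mod_cast h
  rcases (hp.dvd_mul).1 h1 with h2 | h2
  · have := Nat.le_of_dvd (by norm_num) (hp.dvd_of_dvd_pow h2)
    omega
  · have := Nat.le_of_dvd (by norm_num) (hp.dvd_of_dvd_pow h2)
    omega

theorem dvd_of_pow {p : ℕ} (hp : p.Prime) {k : ℕ} {c a : ℤ} (hc : c ≠ 0) (hk : c.natAbs < p ^ k)
    (h : (p : ℤ) ^ k ∣ c * a) : (p : ℤ) ∣ a := by
  by_contra hna
  have hpi : Prime (p : ℤ) := Nat.prime_iff_prime_int.1 hp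
  have h1 : IsCoprime ((p : ℤ) ^ k) a := (hpi.coprime_iff_not_dvd.2 hna).pow_left
  have h2 := h1.dvd_of_dvd_mul_right h
  have h3 := Int.natAbs_dvd_natAbs.2 h2
  rw [Int.natAbs_pow, Int.natAbs_natCast] at h3
  have := Nat.le_of_dvd (Int.natAbs_pos.2 hc) h3
  omega

theorem not_both {p : ℕ} (hp : p.Prime) {x y : ℤ} (h : IsCoprime x y) (hx : (p : ℤ) ∣ x) (hy : (p : ℤ) ∣ y) :
    False := by
  have hpi : Prime (p : ℤ) := Nat.prime_iff_prime_int.1 hp
  exact hpi.not_isUnit (h.isUnit_of_dvd' hx hy)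

theorem sixteen {p : ℕ} (hp : p.Prime) : 16 ≤ p ^ 4 := Nat.pow_le_pow_left hp.two_le 4

theorem sixtyfour {p : ℕ} (hp : p.Prime) : 64 ≤ p ^ 6 := Nat.pow_le_pow_left hp.two_le 6

section

variable {cond : ℤ → ℤ → ℕ} {n₀ : ℕ} {𝓔 : Finset (ℤ × ℤ)}

theorem rad_le {m z : ℤ} (hz : z ≠ 0) (h : ∀ p : ℕ, p.Prime → 5 ≤ p → (p : ℤ) ∣ m → (p : ℤ) ∣ z) :
    radical m.natAbs ≤ 6 * radical z.natAbs := by
  unfold radical
  have hsub : m.natAbs.primeFactors ⊆ {2, 3} ∪ z.natAbs.primeFactors := by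
    intro p hp
    rw [Nat.mem_primeFactors] at hp
    rw [Finset.mem_union, Finset.mem_insert, Finset.mem_singleton, Nat.mem_primeFactors]
    rcases lt_or_ge p 5 with h5 | h5
    · left
      have h2 := hp.1.two_le
      interval_cases p
      · left; rfl
      · right; rfl
      · exact absurd hp.1 (by norm_num)
    · right
      exact ⟨hp.1, Int.natCast_dvd.1 (h p hp.1 h5 (Int.natCast_dvd.2 hp.2.1)), Int.natAbs_ne_zero.2 hz⟩
  have h1 : ∀ s : Finset ℕ, (∀ p ∈ s, 1 ≤ p) → 1 ≤ ∏ p ∈ s, p := fun s hs => Finset.one_le_prod' hs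
  have hone : ∀ p ∈ ({2, 3} ∪ z.natAbs.primeFactors : Finset ℕ), 1 ≤ p := by
    intro p hp
    rw [Finset.mem_union, Finset.mem_insert, Finset.mem_singleton, Nat.mem_primeFactors] at hp
    rcases hp with (rfl | rfl) | hp
    · norm_num
    · norm_num
    · exact hp.1.one_lt.le
  calc ∏ p ∈ m.natAbs.primeFactors, p ≤ ∏ p ∈ ({2, 3} ∪ z.natAbs.primeFactors : Finset ℕ), p :=
        Finset.prod_le_prod_of_subset_of_one_le' hsub fun p hp _ => hone p hp
    _ ≤ (∏ p ∈ ({2, 3} : Finset ℕ), p) * ∏ p ∈ z.natAbs.primeFactors, p := by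
        rw [← Finset.prod_union_inter]
        exact Nat.le_mul_of_pos_right _ (h1 _ fun p hp => hone p (Finset.inter_subset_union hp))
    _ = 6 * ∏ p ∈ z.natAbs.primeFactors, p := by
        rw [Finset.prod_pair (by norm_num)]
        norm_num

/-- the common part of both Frey curves -/
theorem engine (h : Published cond n₀ 𝓔) : ∃ C : ℝ, 1 ≤ C ∧ ∀ (A B z : ℤ) (n : ℕ), Minimal A B → z ≠ 0 →
    2 ≤ z.natAbs → z.natAbs ^ n ≤ (bad A B).natAbs →
    (∀ p : ℕ, p.Prime → 5 ≤ p → ((p : ℤ) ∣ bad A B ↔ (p : ℤ) ∣ z)) →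
    (∀ p : ℕ, p.Prime → 5 ≤ p → (p : ℤ) ∣ z → ¬ (p : ℤ) ∣ A) → (∃ e ∈ 𝓔, Congruent n A B e.1 e.2) →
    (n : ℝ) ≤ C * (radical z.natAbs : ℝ) ^ (0.3452 : ℝ) := by
  obtain ⟨C, hC, hmain⟩ := many_curves 𝓔 fun e he => ⟨(h.curves e he).1, (h.curves e he).2.2⟩
  set 𝓢 := h.shafarevich.toFinset with h𝓢
  set M : ℕ := ∑ t ∈ 𝓢, (bad t.1 t.2).natAbs with hM
  set K : ℝ := (373248 : ℝ) ^ (0.3452 : ℝ) with hK
  have hK1 : 1 ≤ K := Real.one_le_rpow (by norm_num) (by norm_num)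
  refine ⟨C * K + M, ?_, fun A B z n hm hz hz2 hbig hiff hA hE => ?_⟩
  · have : 1 ≤ C * K := by nlinarith
    have : (0 : ℝ) ≤ M := by positivity
    linarith
  have hr1 : 1 ≤ radical z.natAbs := by
    unfold radical
    exact Finset.one_le_prod' fun p hp => (Nat.prime_of_mem_primeFactors hp).one_lt.le
  have hr1' : (1 : ℝ) ≤ (radical z.natAbs : ℝ) ^ (0.3452 : ℝ) :=
    Real.one_le_rpow (by exact_mod_cast hr1) (by norm_num)
  by_cases hex : ∃ p : ℕ, p.Prime ∧ 5 ≤ p ∧ (p : ℤ) ∣ z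
  · obtain ⟨p, hp, h5, hpz⟩ := hex
    obtain ⟨e, he, hc⟩ := hE
    have hni : ¬ Isogenous A B e.1 e.2 := by
      intro hi
      have h1 := (h.isogenous A B e.1 e.2 hm (h.curves e he).1 hi p hp h5).1 ((hiff p hp h5).2 hpz)
      exact (h.curves e he).2.1 p hp h5 h1
    have h1 := hmain e he A B hm hni n hc
    have h2 : cond A B ≤ 373248 * radical z.natAbs := by
      refine (h.conductor A B hm fun p hp h5 hd => hA p hp h5 ((hiff p hp h5).1 hd)).trans ?_
      calc 2 ^ 8 * 3 ^ 5 * radical (bad A B).natAbs ≤ 2 ^ 8 * 3 ^ 5 * (6 * radical z.natAbs) :=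
            Nat.mul_le_mul_left _ (rad_le hz fun p hp h5 hd => (hiff p hp h5).1 hd)
        _ = _ := by ring
    have h3 : (cond A B : ℝ) ^ (0.3452 : ℝ) ≤ K * (radical z.natAbs : ℝ) ^ (0.3452 : ℝ) := by
      rw [hK, ← Real.mul_rpow (by norm_num) (by positivity)]
      exact Real.rpow_le_rpow (by positivity) (by exact_mod_cast h2) (by norm_num)
    have h4 : (0 : ℝ) ≤ M := by positivity
    calc (n : ℝ) ≤ C * (cond A B : ℝ) ^ (0.3452 : ℝ) := h1
      _ ≤ C * (K * (radical z.natAbs : ℝ) ^ (0.3452 : ℝ)) := mul_le_mul_of_nonneg_left h3 (by linarith)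
      _ ≤ (C * K + M) * (radical z.natAbs : ℝ) ^ (0.3452 : ℝ) := by nlinarith
  · push Not at hex
    have hmem : (A, B) ∈ 𝓢 := by
      rw [h𝓢, Set.Finite.mem_toFinset]
      refine ⟨hm, fun p hp hd => ?_⟩
      by_contra h3
      have h5 : 5 ≤ p := by
        have h4 : p ≠ 4 := by
          rintro rfl
          exact absurd hp (by norm_num)
        omega
      exact hex p hp h5 ((hiff p hp h5).1 hd)
    have h1 : (bad A B).natAbs ≤ M :=
      Finset.single_le_sum (f := fun t : ℤ × ℤ => (bad t.1 t.2).natAbs) (fun _ _ => Nat.zero_le _) hmem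
    have h2 : n ≤ M := by
      calc n ≤ 2 ^ n := Nat.lt_two_pow_self.le
        _ ≤ z.natAbs ^ n := Nat.pow_le_pow_left hz2 n
        _ ≤ M := hbig.trans h1
    have h3 : (n : ℝ) ≤ M := by exact_mod_cast h2
    have h4 : (0 : ℝ) ≤ M := by positivity
    have h5 : (0 : ℝ) ≤ C * K := by positivity
    calc (n : ℝ) ≤ M * 1 := by rw [mul_one]; exact h3
      _ ≤ (C * K + M) * (radical z.natAbs : ℝ) ^ (0.3452 : ℝ) := by
          refine mul_le_mul (by linarith) hr1' (by norm_num) (by linarith)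

/-- `x² + y³ = z^n` -/
theorem eq23 (h : Published cond n₀ 𝓔) : ∃ C : ℝ, 1 ≤ C ∧ ∀ (x y z : ℤ) (n : ℕ), n.Prime → IsCoprime x y →
    2 ≤ z.natAbs → x ^ 2 + y ^ 3 = z ^ n → (n : ℝ) ≤ C * (radical z.natAbs : ℝ) ^ (0.3452 : ℝ) := by
  obtain ⟨C, hC, hmain⟩ := engine h
  refine ⟨C + n₀, by have : (0 : ℝ) ≤ n₀ := by positivity
                     linarith, fun x y z n hn hxy hz2 heq => ?_⟩
  have hr1 : 1 ≤ radical z.natAbs := by
    unfold radical
    exact Finset.one_le_prod' fun p hp => (Nat.prime_of_mem_primeFactors hp).one_lt.le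
  have hr1' : (1 : ℝ) ≤ (radical z.natAbs : ℝ) ^ (0.3452 : ℝ) :=
    Real.one_le_rpow (by exact_mod_cast hr1) (by norm_num)
  have hn0 : (0 : ℝ) ≤ n₀ := by positivity
  rcases lt_or_ge n n₀ with hlt | hge
  · have : (n : ℝ) ≤ n₀ := by exact_mod_cast hlt.le
    nlinarith
  have hz : z ≠ 0 := by
    rintro rfl
    simp at hz2
  have hbad : bad (3 * y) (-2 * x) = 648 * z ^ n := by
    unfold bad
    rw [← heq]
    ring
  have hmin : MP_4a0cc8_nt.ConductorExponent.Minimal (3 * y) (-2 * x) := by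
    constructor
    · have h1 : 4 * (3 * y) ^ 3 + 27 * (-2 * x) ^ 2 = 108 * z ^ n := by
        rw [← heq]
        ring
      rw [h1]
      exact mul_ne_zero (by norm_num) (pow_ne_zero _ hz)
    · intro p hp h1 h2
      have hy : (p : ℤ) ∣ y := dvd_of_pow hp (c := 3) (by norm_num) (by
        have := sixteen hp
        norm_num
        omega) h1
      have hx : (p : ℤ) ∣ x := dvd_of_pow hp (c := -2) (by norm_num) (by
        have := sixtyfour hp
        norm_num
        omega) h2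
      exact not_both hp hxy hx hy
  have hiff : ∀ p : ℕ, p.Prime → 5 ≤ p → ((p : ℤ) ∣ bad (3 * y) (-2 * x) ↔ (p : ℤ) ∣ z) := by
    intro p hp h5
    have hpi : Prime (p : ℤ) := Nat.prime_iff_prime_int.1 hp
    rw [hbad]
    constructor
    · intro hd
      rcases hpi.dvd_or_dvd hd with h1 | h1
      · exact absurd (by norm_num at h1 ⊢; exact h1) (not_dvd hp h5 3 4)
      · exact hpi.dvd_of_dvd_pow h1
    · intro hd
      exact (hd.trans (dvd_pow_self z hn.ne_zero)).trans (dvd_mul_left _ _)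
  have hbig : z.natAbs ^ n ≤ (bad (3 * y) (-2 * x)).natAbs := by
    rw [hbad, Int.natAbs_mul, Int.natAbs_pow]
    exact Nat.le_mul_of_pos_left _ (by norm_num)
  have h1 := hmain (3 * y) (-2 * x) z n hmin hz hz2 hbig hiff (fun p hp h5 hpz hd => by
    have hpi : Prime (p : ℤ) := Nat.prime_iff_prime_int.1 hp
    have hy : (p : ℤ) ∣ y := by
      rcases hpi.dvd_or_dvd hd with h1 | h1
      · exact absurd (by norm_num at h1 ⊢; exact h1) (not_dvd hp h5 0 1)
      · exact h1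
    have hx2 : (p : ℤ) ∣ x ^ 2 := by
      have h2 : x ^ 2 = z ^ n - y ^ 3 := by rw [← heq]; ring
      rw [h2]
      exact dvd_sub (hpz.trans (dvd_pow_self z hn.ne_zero)) (hy.trans (dvd_pow_self y (by norm_num)))
    exact not_both hp hxy (hpi.dvd_of_dvd_pow hx2) hy) (h.lower23 x y z n hn hge hxy hz heq)
  nlinarith

/-- `x³ + y³ = z^n` -/
theorem eq33 (h : Published cond n₀ 𝓔) : ∃ C : ℝ, 1 ≤ C ∧ ∀ (x y z : ℤ) (n : ℕ), n.Prime → IsCoprime x y →
    2 ≤ z.natAbs → x ^ 3 + y ^ 3 = z ^ n → (n : ℝ) ≤ C * (radical z.natAbs : ℝ) ^ (0.3452 : ℝ) := by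
  obtain ⟨C, hC, hmain⟩ := engine h
  refine ⟨C + n₀, by have : (0 : ℝ) ≤ n₀ := by positivity
                     linarith, fun x y z n hn hxy hz2 heq => ?_⟩
  have hr1 : 1 ≤ radical z.natAbs := by
    unfold radical
    exact Finset.one_le_prod' fun p hp => (Nat.prime_of_mem_primeFactors hp).one_lt.le
  have hr1' : (1 : ℝ) ≤ (radical z.natAbs : ℝ) ^ (0.3452 : ℝ) :=
    Real.one_le_rpow (by exact_mod_cast hr1) (by norm_num)
  have hn0 : (0 : ℝ) ≤ n₀ := by positivity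
  rcases lt_or_ge n n₀ with hlt | hge
  · have : (n : ℝ) ≤ n₀ := by exact_mod_cast hlt.le
    nlinarith
  have hz : z ≠ 0 := by
    rintro rfl
    simp at hz2
  have hbad : bad (3 * x * y) (y ^ 3 - x ^ 3) = 162 * (z ^ n * z ^ n) := by
    unfold bad
    rw [← heq]
    ring
  -- a prime dividing one of `x`, `y` and `z` divides both
  have hdz : ∀ p : ℕ, p.Prime → (p : ℤ) ∣ x * y → (p : ℤ) ∣ x ^ 3 + y ^ 3 ∨ (p : ℤ) ∣ y ^ 3 - x ^ 3 → False := by
    intro p hp h1 h2
    have hpi : Prime (p : ℤ) := Nat.prime_iff_prime_int.1 hp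
    rcases hpi.dvd_or_dvd h1 with hx | hy
    · have hx3 := hx.trans (dvd_pow_self x (show 3 ≠ 0 by norm_num))
      have hy3 : (p : ℤ) ∣ y ^ 3 := by
        rcases h2 with h2 | h2
        · exact (dvd_add_right hx3).1 h2
        · exact (dvd_sub_left hx3).1 h2
      exact not_both hp hxy hx (hpi.dvd_of_dvd_pow hy3)
    · have hy3 := hy.trans (dvd_pow_self y (show 3 ≠ 0 by norm_num))
      have hx3 : (p : ℤ) ∣ x ^ 3 := by
        rcases h2 with h2 | h2
        · exact (dvd_add_left hy3).1 h2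
        · exact (dvd_sub_right hy3).1 h2
      exact not_both hp hxy (hpi.dvd_of_dvd_pow hx3) hy
  have hmin : MP_4a0cc8_nt.ConductorExponent.Minimal (3 * x * y) (y ^ 3 - x ^ 3) := by
    constructor
    · have h1 : 4 * (3 * x * y) ^ 3 + 27 * (y ^ 3 - x ^ 3) ^ 2 = 27 * (z ^ n * z ^ n) := by
        rw [← heq]
        ring
      rw [h1]
      exact mul_ne_zero (by norm_num) (mul_ne_zero (pow_ne_zero _ hz) (pow_ne_zero _ hz))
    · intro p hp h1 h2
      have hxy' : (p : ℤ) ∣ x * y := dvd_of_pow hp (k := 4) (c := 3) (by norm_num) (by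
        have := sixteen hp
        norm_num
        omega) (by rwa [← mul_assoc])
      exact hdz p hp hxy' (Or.inr ((dvd_pow_self (p : ℤ) (by norm_num)).trans h2))
  have hiff : ∀ p : ℕ, p.Prime → 5 ≤ p → ((p : ℤ) ∣ bad (3 * x * y) (y ^ 3 - x ^ 3) ↔ (p : ℤ) ∣ z) := by
    intro p hp h5
    have hpi : Prime (p : ℤ) := Nat.prime_iff_prime_int.1 hp
    rw [hbad]
    constructor
    · intro hd
      rcases hpi.dvd_or_dvd hd with h1 | h1
      · exact absurd (by norm_num at h1 ⊢; exact h1) (not_dvd hp h5 1 4)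
      · rcases hpi.dvd_or_dvd h1 with h2 | h2 <;> exact hpi.dvd_of_dvd_pow h2
    · intro hd
      exact ((hd.trans (dvd_pow_self z hn.ne_zero)).trans (dvd_mul_left _ _)).trans (dvd_mul_left _ _)
  have hbig : z.natAbs ^ n ≤ (bad (3 * x * y) (y ^ 3 - x ^ 3)).natAbs := by
    rw [hbad, Int.natAbs_mul, Int.natAbs_mul, Int.natAbs_pow]
    refine (Nat.le_mul_of_pos_left _ ?_).trans (Nat.le_mul_of_pos_left _ (by norm_num))
    exact Nat.pow_pos (by omega)
  have h1 := hmain (3 * x * y) (y ^ 3 - x ^ 3) z n hmin hz hz2 hbig hiff (fun p hp h5 hpz hd => by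
    have hpi : Prime (p : ℤ) := Nat.prime_iff_prime_int.1 hp
    have hxy' : (p : ℤ) ∣ x * y := by
      rw [mul_assoc] at hd
      rcases hpi.dvd_or_dvd hd with h1 | h1
      · exact absurd (by norm_num at h1 ⊢; exact h1) (not_dvd hp h5 0 1)
      · exact h1
    refine hdz p hp hxy' (Or.inl ?_)
    rw [heq]
    exact hpz.trans (dvd_pow_self z hn.ne_zero)) (h.lower33 x y z n hn hge hxy hz heq)
  nlinarith

end

/-- **Fermat-Catalan for the signatures `{2, 3, r}` and `{3, 3, r}`.**  There is a constant `C` such that for all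
positive integers `u, v, w`, `u` and `v` coprime, `w ≥ 2`, and all primes `r` with `u² + v³ = w^r`,
`u² + w^r = v³`, `v³ + w^r = u²`, `u³ + v³ = w^r` or `u³ + w^r = v³` one has `r ≤ C rad(w)^0.3452`. -/
theorem result (cond : ℤ → ℤ → ℕ) (n₀ : ℕ) (𝓔 : Finset (ℤ × ℤ)) (h : Published cond n₀ 𝓔) :
    ∃ C : ℝ, 0 < C ∧ ∀ u v w r : ℕ, 0 < u → 0 < v → u.Coprime v → 2 ≤ w → r.Prime →
      (u ^ 2 + v ^ 3 = w ^ r ∨ u ^ 2 + w ^ r = v ^ 3 ∨ v ^ 3 + w ^ r = u ^ 2 ∨ u ^ 3 + v ^ 3 = w ^ r ∨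
        u ^ 3 + w ^ r = v ^ 3) →
      (r : ℝ) ≤ C * (radical w : ℝ) ^ (0.3452 : ℝ) := by
  obtain ⟨C₁, hC₁, h1⟩ := eq23 h
  obtain ⟨C₂, hC₂, h2⟩ := eq33 h
  refine ⟨C₁ + C₂ + 2, by linarith, fun u v w r hu hv huv hw hr heq => ?_⟩
  have hr1 : 1 ≤ radical w := by
    unfold radical
    exact Finset.one_le_prod' fun p hp => (Nat.prime_of_mem_primeFactors hp).one_lt.le
  have hR : (1 : ℝ) ≤ (radical w : ℝ) ^ (0.3452 : ℝ) :=
    Real.one_le_rpow (by exact_mod_cast hr1) (by norm_num)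
  have hcop : IsCoprime (u : ℤ) (v : ℤ) := Nat.isCoprime_iff_coprime.2 huv
  have k1 : ∀ x y z : ℤ, IsCoprime x y → z.natAbs = w → x ^ 2 + y ^ 3 = z ^ r →
      (r : ℝ) ≤ (C₁ + C₂ + 2) * (radical w : ℝ) ^ (0.3452 : ℝ) := by
    intro x y z hxy hz he
    have := h1 x y z r hr hxy (by rw [hz]; exact hw) he
    rw [hz] at this
    nlinarith
  have k2 : ∀ x y z : ℤ, IsCoprime x y → z.natAbs = w → x ^ 3 + y ^ 3 = z ^ r →
      (r : ℝ) ≤ (C₁ + C₂ + 2) * (radical w : ℝ) ^ (0.3452 : ℝ) := by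
    intro x y z hxy hz he
    have := h2 x y z r hr hxy (by rw [hz]; exact hw) he
    rw [hz] at this
    nlinarith
  rcases heq with he | he | he | he | he
  · exact k1 u v w hcop (Int.natAbs_natCast w) (by exact_mod_cast he)
  · rcases hr.eq_two_or_odd' with h3 | h3
    · have : (r : ℝ) = 2 := by rw [h3]; norm_num
      rw [this]
      nlinarith
    · refine k1 u (-v) (-w) hcop.neg_right (by simp) ?_
      have he' : (u : ℤ) ^ 2 + (w : ℤ) ^ r = (v : ℤ) ^ 3 := by exact_mod_cast he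
      rw [h3.neg_pow]
      linarith [he', show (-(v : ℤ)) ^ 3 = -(v : ℤ) ^ 3 by ring]
  · refine k1 u (-v) w hcop.neg_right (Int.natAbs_natCast w) ?_
    have he' : (v : ℤ) ^ 3 + (w : ℤ) ^ r = (u : ℤ) ^ 2 := by exact_mod_cast he
    linarith [he', show (-(v : ℤ)) ^ 3 = -(v : ℤ) ^ 3 by ring]
  · exact k2 u v w hcop (Int.natAbs_natCast w) (by exact_mod_cast he)
  · refine k2 v (-u) w hcop.symm.neg_right (Int.natAbs_natCast w) ?_
    have he' : (u : ℤ) ^ 3 + (w : ℤ) ^ r = (v : ℤ) ^ 3 := by exact_mod_cast he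
    linarith [he', show (-(u : ℤ)) ^ 3 = -(u : ℤ) ^ 3 by ring]

end Pool.Agent.Results.MP_509488_nt.ExponentByRadical
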