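import Pool.Agent.U828.KD.FCC

/-!
# The Fermat-Catalan equation with two bases near values of two arbitrary functions with large differences of some order

Let `d₁, d₂ ≥ 2`, let `f₁`, `f₂` be ANY functions on `{1, …, x₁}`, `{1, …, x₂}` with values in `[-M₁, M₁]`, `[-M₂, M₂]`,
where `x_i ≥ M_i ^ (1 / d_i + δ)` and `N ≤ M_i ≤ N ^ K`, such that the differences of order `d_i` of `f_i` are all at least
`M_i ^ (1 - κ) / x_i ^ d_i`, or all at most the negative of this number. For `d_i = 2` these are the strictly convex or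
concave functions (in a quantitative sense); no smoothness, no formula and no growth condition is assumed. The sets of
values are arbitrarily sparse: `M ^ (1 / d + δ)` of the integers up to `M`, for every `d`.

**Theorem.** For one hundred per cent of the pairs `(m, n)`, `m ≤ x₁`, `n ≤ x₂`, NO two coprime integers `x`, `y` with
`|x - f₁(m)| ≤ U`, `|y - f₂(n)| ≤ U` are two of the three bases of a solution of the Fermat-Catalan equation
`x ^ p + y ^ q = z ^ r`, `x ^ p + z ^ r = y ^ q` or `y ^ q + z ^ r = x ^ p` with a third base `z ≤ exp (N ^ κ)`. All the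
exponents `p, q, r ≥ 2` are free, except that `r ≥ 3` if `p` and `q` are both even. The bound is uniform in the functions.

Proof. A `d`-th derivative test for arbitrary functions (`Pool.Agent.U828.KD`, helper828) shows that the integer parts of the
values are well distributed in the residue classes modulo all `m ≤ N ^ θ`, with a power saving. So each pair of bases occurs
for few pairs `(m, n)`, and the theorem on lopsided pairs (starting file `MP_509488_nt.LopsidedPairs`, library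
`Pool.Agent.N741.LD`) settles all large third exponents; the residue sieve for pairs of bases (library `Pool.Agent.H374R2`)
settles the others, as in the starting file `MP_509488_nt.RealPowersOfPrimes` (library `Pool.Agent.N666.VE`).
-/

set_option autoImplicit false

namespace Pool.Agent.Results.MP_509488_nt.HigherConvexBases

open Finset

/-- The differences of order `d` of `f` on `{1, ..., x}` are all at least `κ`, or all at most `-κ`. Here `fwdDiff 1 f m`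
is the difference `f (m + 1) - f m`. -/
def Bent (d x : ℕ) (f : ℕ → ℝ) (κ : ℝ) : Prop :=
  (∀ m, 1 ≤ m → m + d ≤ x → κ ≤ (fwdDiff 1)^[d] f m) ∨ (∀ m, 1 ≤ m → m + d ≤ x → (fwdDiff 1)^[d] f m ≤ -κ)

/-- `x` and `y` are coprime and two of the three bases of a solution with a third base at most `W`. -/
def TwoBases (W : ℝ) (x y : ℕ) : Prop := ∃ z p q r : ℕ, 1 ≤ x ∧ 1 ≤ y ∧ Nat.Coprime x y ∧ 1 ≤ z ∧
  (z : ℝ) ≤ W ∧ 2 ≤ p ∧ 2 ≤ q ∧ 2 ≤ r ∧ (3 ≤ r ∨ ¬ 2 ∣ p ∨ ¬ 2 ∣ q) ∧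
  (x ^ p + y ^ q = z ^ r ∨ x ^ p + z ^ r = y ^ q ∨ y ^ q + z ^ r = x ^ p)

/-- The functions `f` on `{1, ..., x}` with values in `[-M, M]`, `N ≤ M ≤ N ^ K` and `x ≥ M ^ (1 / d + δ)`, whose
differences of order `d` are all at least `M ^ (1 - κ) / x ^ d`, or all at most the negative of this number. -/
def Curve (d K N : ℕ) (δ κ M : ℝ) (x : ℕ) (f : ℕ → ℝ) : Prop :=
  (N : ℝ) ≤ M ∧ M ≤ (N : ℝ) ^ K ∧ M ^ (1 / (d : ℝ) + δ) ≤ x ∧ (∀ m ∈ Icc 1 x, |f m| ≤ M) ∧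
    Bent d x f (M ^ (1 - κ) / (x : ℝ) ^ d)

/-- Let `d₁, d₂ ≥ 2`, `0 < δ ≤ 1`, `K`, `U` be given. There is `κ > 0` such that for all `ε > 0`, all large `N` and ALL pairs
of functions `f₁`, `f₂` as above (with `d₁`, `d₂`) for at most `ε x₁ x₂` of the pairs `(m, n)`, `m ≤ x₁`, `n ≤ x₂`, there
are `x`, `y` within `U` of `f₁(m)`, `f₂(n)` which are coprime and two bases of a solution with a third base at most
`exp (N ^ κ)`. -/
theorem result (d₁ d₂ : ℕ) (hd₁ : 2 ≤ d₁) (hd₂ : 2 ≤ d₂) (δ : ℝ) (h0 : 0 < δ) (h1 : δ ≤ 1) (K U : ℕ) :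
    ∃ κ : ℝ, 0 < κ ∧ ∀ ε : ℝ, 0 < ε → ∃ N₀ : ℕ, ∀ N : ℕ, N₀ ≤ N → ∀ (M₁ M₂ : ℝ) (x₁ x₂ : ℕ) (f₁ f₂ : ℕ → ℝ),
      Curve d₁ K N δ κ M₁ x₁ f₁ → Curve d₂ K N δ κ M₂ x₂ f₂ →
      ({i : ℕ × ℕ | (1 ≤ i.1 ∧ i.1 ≤ x₁) ∧ (1 ≤ i.2 ∧ i.2 ≤ x₂) ∧ ∃ x y : ℕ, |(x : ℝ) - f₁ i.1| ≤ U ∧
        |(y : ℝ) - f₂ i.2| ≤ U ∧ TwoBases (Real.exp ((N : ℝ) ^ κ)) x y}.ncard : ℝ) ≤ ε * (x₁ * x₂) := by
  classical
  obtain ⟨κ, hκ, H⟩ := Pool.Agent.U828.KD.FCC.prod d₁ d₂ hd₁ hd₂ δ h0 h1 K U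
  refine ⟨κ, hκ, fun ε hε => ?_⟩
  obtain ⟨N₀, h⟩ := H ε hε
  refine ⟨N₀, fun N hN M₁ M₂ x₁ x₂ f₁ f₂ ⟨a1, a2, a3, a4, a5⟩ ⟨b1, b2, b3, b4, b5⟩ => ?_⟩
  have h2 := h N hN M₁ M₂ a1 a2 b1 b2 x₁ x₂ a3 b3 f₁ f₂ a4 b4 a5 b5 (fun i => ∃ x y : ℕ, |(x : ℝ) - f₁ i.1| ≤ U ∧
        |(y : ℝ) - f₂ i.2| ≤ U ∧ TwoBases (Real.exp ((N : ℝ) ^ κ)) x y) (by
    rintro i _ ⟨x, y, c1, c2, c3⟩
    exact ⟨x, y, ⟨c1, c2⟩, c3⟩)
  refine le_trans (le_of_eq ?_) h2
  rw [← Set.ncard_coe_finset]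
  congr 2
  ext i
  simp only [Set.mem_ofPred_eq, coe_filter, mem_product, mem_Icc, and_assoc]

end Pool.Agent.Results.MP_509488_nt.HigherConvexBases
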